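import Mathlib

namespace Pool.Agent.H.MP_3b2a32_co

def dfs (E : ℕ → List ℕ) : ℕ → List ℕ → Bool
  | 0, _ => false
  | f + 1, l => [0, 1, 2].all fun a =>
      (E l.length).any (fun j => l.getD j 3 == a) || dfs E f (l ++ [a])

theorem dfs_sound (E : ℕ → List ℕ) (c : ℕ → ℕ) (hc : ∀ i, c i < 3)
    (hE : ∀ i, ∀ j ∈ E i, c j ≠ c i) (f : ℕ) :
    ∀ k, dfs E f ((List.range k).map c) = false := by
  induction f with
  | zero => intro k; rfl
  | succ f ih =>
    intro k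
    rw [dfs, List.all_eq_false]
    refine ⟨c k, by have := hc k; simp; omega, ?_⟩
    have h1 := ih (k + 1)
    rw [List.range_succ, List.map_append] at h1
    simp only [List.map_cons, List.map_nil] at h1
    rw [h1]
    simp only [List.length_map, List.length_range, Bool.or_false, List.any_eq_true, beq_iff_eq,
      not_exists, not_and]
    intro j hj
    by_cases h : j < k
    · simpa [List.getD_eq_getElem?_getD, h] using hE k j hj
    · have := hc k
      simp [List.getD_eq_getElem?_getD, h]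
      omega

def U : ℕ → Fin 3 → ℤ := fun i => ([![0, 0, 1], ![1, 0, 0], ![1, 1, 0], ![0, 0, 1], ![1, 0, 0], ![0, 1, 0], ![0, 1, 1], ![0, 0, 1], ![0, 1, 1], ![1, 1, 0], ![0, 1, 1], ![1, 1, 0], ![1, 0, -1], ![0, 1, 0], ![1, 0, -1], ![1, 1, 1], ![1, 1, 1], ![1, 0, -1], ![1, 0, 0]] : List (Fin 3 → ℤ)).getD i ![1, 0, 0]

def P : ℕ → Fin 3 → ℤ := fun i => ([![0, 0, 1], ![1, -1, 0], ![0, 1, 0], ![0, -1, 1], ![1, 0, 0], ![0, 1, 0], ![0, 1, 0], ![1, -1, 1], ![-1, 1, 0], ![1, 0, 0], ![0, 0, 1], ![0, 1, -1], ![0, 0, -1], ![-1, 1, -1], ![1, -1, 0], ![0, 1, 0], ![1, -1, 1], ![0, 1, -1], ![1, 0, 1]] : List (Fin 3 → ℤ)).getD i ![1, 0, 0]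

def E : ℕ → List ℕ := fun i => ([[], [0], [0, 1], [1], [0, 3], [0, 4], [3, 4], [2, 6], [3, 7], [0, 7, 8], [4, 9], [1, 8, 10], [2, 5], [9, 10, 12], [2, 7], [1, 3, 14], [8, 11, 14], [6, 15, 16], [5, 12, 17]] : List (List ℕ)).getD i []

theorem dfs_true : dfs E 19 [] = true := by decide +kernel

theorem unit (i : ℕ) : P i ⬝ᵥ U i = 1 := by
  by_cases h : i < 19
  · revert i
    decide +kernel
  · simp [P, U, List.getD_eq_getElem?_getD, not_lt.1 h]

theorem orth (i : ℕ) : ∀ j ∈ E i, P i ⬝ᵥ U j = 0 ∧ P j ⬝ᵥ U i = 0 := by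
  by_cases h : i < 19
  · revert i
    decide +kernel
  · simp [E, List.getD_eq_getElem?_getD, not_lt.1 h]

theorem no3 (c : ℕ → ℕ) (hc : ∀ i, c i < 3) : ∃ i, ∃ j ∈ E i, c j = c i := by
  by_contra h
  push Not at h
  have := dfs_sound E c hc h 19 0
  simp [dfs_true] at this

end Pool.Agent.H.MP_3b2a32_co
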